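import Pool.Agent.H737DS.Pieces

set_option autoImplicit false
set_option linter.unusedSectionVars false
set_option linter.unusedSimpArgs false
set_option linter.unusedVariables false

/-! Graphs of systems, their distance matrices, and the glued graph. -/

namespace Pool.Agent.H737DS

open Finset

/-! ### Graph distance from a metric with unit steps -/

theorem walk_lower {V : Type} (G : SimpleGraph V) (δ : V → V → ℕ)
    (h0 : ∀ x, δ x x = 0) (ht : ∀ x y z, δ x z ≤ δ x y + δ y z)
    (hG : ∀ x y, G.Adj x y → δ x y = 1) :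
    ∀ {x y : V} (w : G.Walk x y), δ x y ≤ w.length := by
  intro x y w
  induction w with
  | nil => simp [h0]
  | cons h p ih =>
    rename_i a b c
    have h1 := ht a b c
    have h2 := hG _ _ h
    simp only [SimpleGraph.Walk.length_cons]
    omega

theorem walk_upper {V : Type} (G : SimpleGraph V) (δ : V → V → ℕ)
    (h0 : ∀ x, δ x x = 0) (h0' : ∀ x y, δ x y = 0 → x = y)
    (hstep : ∀ x y, x ≠ y → ∃ x', G.Adj x x' ∧ δ x' y + 1 = δ x y) :
    ∀ (n : ℕ) (x y : V), δ x y = n → ∃ w : G.Walk x y, w.length = n := by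
  intro n
  induction n with
  | zero =>
    intro x y h
    have := h0' x y h
    subst this
    exact ⟨SimpleGraph.Walk.nil, rfl⟩
  | succ n ih =>
    intro x y h
    have hxy : x ≠ y := by
      rintro rfl
      rw [h0] at h
      omega
    obtain ⟨x', ha, hd⟩ := hstep x y hxy
    obtain ⟨w, hw⟩ := ih x' y (by omega)
    exact ⟨SimpleGraph.Walk.cons ha w, by simp [hw]⟩

/-- the graph of pairs at distance one -/
def unitGraph {V : Type} (δ : V → V → ℕ) (h0 : ∀ x, δ x x = 0) (hs : ∀ x y, δ x y = δ y x) :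
    SimpleGraph V where
  Adj x y := δ x y = 1
  symm := ⟨fun x y h => by rw [hs]; exact h⟩
  loopless := ⟨fun x h => by rw [h0] at h; omega⟩

theorem unitGraph_dist {V : Type} (δ : V → V → ℕ) (h0 : ∀ x, δ x x = 0)
    (hs : ∀ x y, δ x y = δ y x) (h0' : ∀ x y, δ x y = 0 → x = y)
    (ht : ∀ x y z, δ x z ≤ δ x y + δ y z)
    (hstep : ∀ x y, x ≠ y → ∃ x', δ x x' = 1 ∧ δ x' y + 1 = δ x y) (x y : V) :
    (unitGraph δ h0 hs).Reachable x y ∧ (unitGraph δ h0 hs).dist x y = δ x y := by
  obtain ⟨w, hw⟩ := walk_upper (unitGraph δ h0 hs) δ h0 h0' hstep (δ x y) x y rfl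
  refine ⟨⟨w⟩, le_antisymm ?_ ?_⟩
  · rw [← hw]; exact SimpleGraph.dist_le w
  · obtain ⟨p, hp⟩ := SimpleGraph.Reachable.exists_walk_length_eq_dist
      (⟨w⟩ : (unitGraph δ h0 hs).Reachable x y)
    rw [← hp]
    exact walk_lower (unitGraph δ h0 hs) δ h0 ht (fun x y h => h) p

/-! ### Spectrum -/

open Polynomial in
theorem charpoly_rel {V J : Type} [Fintype V] [DecidableEq V] [Fintype J] [DecidableEq J]
    (D : Matrix V V ℝ) (A : Matrix V J ℝ) (B : Matrix J V ℝ) (d : J → ℝ)
    (hD : D = A * B) (hBA : B * A = Matrix.diagonal d) :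
    (X : ℝ[X]) ^ Fintype.card J * D.charpoly = X ^ Fintype.card V * ∏ j, (X - C (d j)) := by
  have h := Matrix.charpoly_mul_comm' A B
  rwa [← hD, hBA, Matrix.charpoly_diagonal] at h

/-- the distance matrix of a graph -/
noncomputable def distMat {V : Type} (G : SimpleGraph V) : Matrix V V ℝ :=
  Matrix.of fun u v => (G.dist u v : ℝ)

/-- the product over the index set of a system -/
noncomputable def Sys.P (S : Sys) (N : ℝ) : Polynomial ℝ :=
  ∏ j : S.J, (Polynomial.X - Polynomial.C (-(N * S.lam j)))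

theorem P_prod (S T : Sys) (N : ℝ) : (S.prod T).P N = S.P N * T.P N := by
  unfold Sys.P Sys.prod
  rw [Fintype.prod_sum_type]
  simp

theorem P_pow (S : Sys) (n : ℕ) (N : ℝ) : (S.pow n).P N = (S.P N) ^ n := by
  unfold Sys.P Sys.pow
  rw [Fintype.prod_prod_type]
  simp

/-- the graph of a system -/
def Sys.graph (S : Sys) : SimpleGraph S.V := unitGraph S.δ S.δ_self S.δ_symm

theorem Sys.dist (S : Sys) (x y : S.V) : S.graph.Reachable x y ∧ S.graph.dist x y = S.δ x y :=
  unitGraph_dist S.δ S.δ_self S.δ_symm S.δ_zero S.δ_tri S.δ_step x y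

open Polynomial in
theorem Sys.charpoly (S : Sys) :
    (X : ℝ[X]) ^ (Fintype.card S.J + 1) * (distMat S.graph).charpoly =
      X ^ Fintype.card S.V * ((X - C (S.ρ * Fintype.card S.V)) * S.P (Fintype.card S.V)) := by
  have h := charpoly_rel (distMat S.graph)
    (Matrix.of fun (x : S.V) (k : Option S.J) => k.elim S.ρ (fun j => - S.z x j))
    (Matrix.of fun (k : Option S.J) (x : S.V) => k.elim 1 (fun j => S.w j x))
    (fun k => k.elim (S.ρ * Fintype.card S.V) (fun j => -((Fintype.card S.V : ℝ) * S.lam j)))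
    (by
      ext x y
      rw [Matrix.mul_apply, Fintype.sum_option]
      simp only [distMat, Matrix.of_apply, Option.elim, (S.dist x y).2, S.fac, neg_mul,
        Finset.sum_neg_distrib]
      ring)
    (by
      ext k l
      rw [Matrix.mul_apply]
      simp only [Matrix.of_apply]
      rcases k with _ | k <;> rcases l with _ | l
      · simp only [Option.elim, Matrix.diagonal_apply_eq, Finset.sum_const, Finset.card_univ,
          nsmul_eq_mul]
        ring
      · rw [Matrix.diagonal_apply_ne _ (by simp)]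
        simp only [Option.elim, one_mul, Finset.sum_neg_distrib, S.z_sum, neg_zero]
      · rw [Matrix.diagonal_apply_ne _ (by simp)]
        simp only [Option.elim, ← Finset.sum_mul, S.w_sum, zero_mul]
      · simp only [Option.elim, mul_neg, Finset.sum_neg_distrib, S.orth]
        by_cases hkl : k = l
        · subst hkl
          rw [Matrix.diagonal_apply_eq]
          simp
        · rw [Matrix.diagonal_apply_ne _ (by simpa using hkl)]
          simp [hkl])
  rw [Fintype.card_option, Fintype.prod_option] at h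
  exact h

/-! ### The glued graph -/

section glue

variable (F R : Sys) (U : Type) [Fintype U] [DecidableEq U] (ι : U → F.V)

/-- the position of a glued point -/
def emb : U ⊕ F.V → F.V := Sum.elim ι id

/-- the side of a glued point -/
def tg : U ⊕ F.V → ℕ := Sum.elim (fun _ => 0) (fun _ => 1)

/-- the metric of the glued graph -/
def gδ (x y : (U ⊕ F.V) × R.V) : ℕ :=
  (if tg F U x.1 = tg F U y.1 then 0 else 1) + F.δ (emb F U ι x.1) (emb F U ι y.1) + R.δ x.2 y.2

theorem gδ_self (x : (U ⊕ F.V) × R.V) : gδ F R U ι x x = 0 := by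
  simp [gδ, F.δ_self, R.δ_self]

theorem gδ_symm (x y : (U ⊕ F.V) × R.V) : gδ F R U ι x y = gδ F R U ι y x := by
  unfold gδ
  rw [F.δ_symm, R.δ_symm]
  simp only [eq_comm]

theorem gδ_tri (x y z : (U ⊕ F.V) × R.V) :
    gδ F R U ι x z ≤ gδ F R U ι x y + gδ F R U ι y z := by
  unfold gδ
  have h1 := F.δ_tri (emb F U ι x.1) (emb F U ι y.1) (emb F U ι z.1)
  have h2 := R.δ_tri x.2 y.2 z.2
  have h3 : (if tg F U x.1 = tg F U z.1 then 0 else 1) ≤
      (if tg F U x.1 = tg F U y.1 then 0 else 1) + (if tg F U y.1 = tg F U z.1 then 0 else 1) := by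
    split_ifs <;> omega
  omega

theorem gδ_zero (hι : Function.Injective ι) (x y : (U ⊕ F.V) × R.V)
    (h : gδ F R U ι x y = 0) : x = y := by
  unfold gδ at h
  have h1 : F.δ (emb F U ι x.1) (emb F U ι y.1) = 0 := by omega
  have h2 : R.δ x.2 y.2 = 0 := by omega
  have h3 : tg F U x.1 = tg F U y.1 := by
    by_contra hne
    rw [if_neg hne] at h
    omega
  refine Prod.ext ?_ (R.δ_zero _ _ h2)
  have h4 := F.δ_zero _ _ h1
  rcases hx : x.1 with a | a <;> rcases hy : y.1 with b | b <;>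
    simp only [hx, hy, tg, emb, Sum.elim_inl, Sum.elim_inr, id] at h3 h4
  · rw [hι h4]
  · omega
  · omega
  · rw [h4]

theorem gδ_step (hι : Function.Injective ι)
    (ustep : ∀ x y : U, x ≠ y → ∃ x', F.δ (ι x) (ι x') = 1 ∧
      F.δ (ι x') (ι y) + 1 = F.δ (ι x) (ι y)) (x y : (U ⊕ F.V) × R.V) (h : x ≠ y) :
    ∃ x', gδ F R U ι x x' = 1 ∧ gδ F R U ι x' y + 1 = gδ F R U ι x y := by
  obtain ⟨a, r⟩ := x
  obtain ⟨b, t⟩ := y
  by_cases hrt : r = t
  · subst hrt
    have hab : a ≠ b := fun h' => h (by rw [h'])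
    rcases a with u | p <;> rcases b with v | q
    · obtain ⟨u', h1, h2⟩ := ustep u v (fun hh => hab (by rw [hh]))
      refine ⟨(Sum.inl u', r), ?_, ?_⟩
      · simp [gδ, tg, emb, R.δ_self, h1]
      · simp [gδ, tg, emb, R.δ_self, h2]
    · refine ⟨(Sum.inr (ι u), r), ?_, ?_⟩
      · simp [gδ, tg, emb, R.δ_self, F.δ_self]
      · simp [gδ, tg, emb, R.δ_self]
        omega
    · by_cases hp : p = ι v
      · subst hp
        refine ⟨(Sum.inl v, r), ?_, ?_⟩
        · simp [gδ, tg, emb, R.δ_self, F.δ_self]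
        · simp [gδ, tg, emb, R.δ_self, F.δ_self]
      · obtain ⟨p', h1, h2⟩ := F.δ_step p (ι v) hp
        refine ⟨(Sum.inr p', r), ?_, ?_⟩
        · simp [gδ, tg, emb, R.δ_self, h1]
        · simp [gδ, tg, emb, R.δ_self]
          omega
    · obtain ⟨p', h1, h2⟩ := F.δ_step p q (fun hh => hab (by rw [hh]))
      refine ⟨(Sum.inr p', r), ?_, ?_⟩
      · simp [gδ, tg, emb, R.δ_self, h1]
      · simp [gδ, tg, emb, R.δ_self, h2]
  · obtain ⟨r', h1, h2⟩ := R.δ_step r t hrt
    refine ⟨(a, r'), ?_, ?_⟩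
    · simp [gδ, F.δ_self, h1]
    · simp only [gδ]
      omega

/-- the glued graph -/
def glue : SimpleGraph ((U ⊕ F.V) × R.V) :=
  unitGraph (gδ F R U ι) (gδ_self F R U ι) (gδ_symm F R U ι)

theorem glue_dist (hι : Function.Injective ι)
    (ustep : ∀ x y : U, x ≠ y → ∃ x', F.δ (ι x) (ι x') = 1 ∧
      F.δ (ι x') (ι y) + 1 = F.δ (ι x) (ι y)) (x y : (U ⊕ F.V) × R.V) :
    (glue F R U ι).Reachable x y ∧ (glue F R U ι).dist x y = gδ F R U ι x y :=
  unitGraph_dist _ _ _ (gδ_zero F R U ι hι) (gδ_tri F R U ι) (gδ_step F R U ι hι ustep) x y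

/-- first function of the side -/
def hf : U ⊕ F.V → ℝ := Sum.elim (fun _ => 32) (fun _ => 31)

/-- second function of the side -/
def gf : U ⊕ F.V → ℝ := Sum.elim (fun _ => 31) (fun _ => -4)

/-- left factor -/
noncomputable def GA (x : (U ⊕ F.V) × R.V) (k : Option (Option (F.J ⊕ R.J))) : ℝ :=
  k.elim (3 / 121 * hf F U x.1) fun k => k.elim (-(1 / 605) * gf F U x.1) fun k =>
    Sum.elim (fun j => - F.z (emb F U ι x.1) j) (fun j => - R.z x.2 j) k

/-- right factor -/
noncomputable def GB (k : Option (Option (F.J ⊕ R.J))) (x : (U ⊕ F.V) × R.V) : ℝ :=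
  k.elim (hf F U x.1) fun k => k.elim (gf F U x.1) fun k =>
    Sum.elim (fun j => F.w j (emb F U ι x.1)) (fun j => R.w j x.2) k

theorem glue_fac (hι : Function.Injective ι)
    (ustep : ∀ x y : U, x ≠ y → ∃ x', F.δ (ι x) (ι x') = 1 ∧
      F.δ (ι x') (ι y) + 1 = F.δ (ι x) (ι y)) (hρ : F.ρ + R.ρ = 119 / 5) :
    distMat (glue F R U ι) = Matrix.of (GA F R U ι) * Matrix.of (GB F R U ι) := by
  ext x y
  rw [Matrix.mul_apply, Fintype.sum_option, Fintype.sum_option, Fintype.sum_sum_type]
  simp only [distMat, Matrix.of_apply, GA, GB, Option.elim, Sum.elim_inl, Sum.elim_inr,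
    (glue_dist F R U ι hι ustep x y).2, gδ, neg_mul, Finset.sum_neg_distrib]
  push_cast
  rw [F.fac, R.fac]
  have key : (if tg F U x.1 = tg F U y.1 then (0 : ℝ) else 1) + 119 / 5 =
      3 / 121 * hf F U x.1 * hf F U y.1 - 1 / 605 * gf F U x.1 * gf F U y.1 := by
    rcases x.1 with a | a <;> rcases y.1 with b | b <;> simp [tg, hf, gf] <;> norm_num
  rw [← hρ] at key
  linarith

section sums

variable (hcard : Fintype.card F.V = 8 * Fintype.card U)
  (uz : ∀ j, ∑ u, F.z (ι u) j = 0) (uw : ∀ j, ∑ u, F.w j (ι u) = 0)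
  (uo : ∀ j k, ∑ u, F.w j (ι u) * F.z (ι u) k =
    if j = k then (Fintype.card U : ℝ) * F.lam j else 0)

include hcard in
theorem s_hh : ∑ a, hf F U a * (3 / 121 * hf F U a) = 24 * (Fintype.card (U ⊕ F.V) : ℝ) := by
  rw [Fintype.sum_sum_type]
  simp only [hf, Sum.elim_inl, Sum.elim_inr, Finset.sum_const, card_univ, nsmul_eq_mul,
    Fintype.card_sum, hcard]
  push_cast
  ring

include hcard in
theorem s_hg : ∑ a, hf F U a * (-(1 / 605) * gf F U a) = 0 := by
  rw [Fintype.sum_sum_type]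
  simp only [hf, gf, Sum.elim_inl, Sum.elim_inr, Finset.sum_const, card_univ, nsmul_eq_mul, hcard]
  push_cast
  ring

include hcard in
theorem s_gh : ∑ a, gf F U a * (3 / 121 * hf F U a) = 0 := by
  rw [Fintype.sum_sum_type]
  simp only [hf, gf, Sum.elim_inl, Sum.elim_inr, Finset.sum_const, card_univ, nsmul_eq_mul, hcard]
  push_cast
  ring

include hcard in
theorem s_gg : ∑ a, gf F U a * (-(1 / 605) * gf F U a) =
    -((Fintype.card (U ⊕ F.V) : ℝ) * (1 / 5)) := by
  rw [Fintype.sum_sum_type]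
  simp only [gf, Sum.elim_inl, Sum.elim_inr, Finset.sum_const, card_univ, nsmul_eq_mul,
    Fintype.card_sum, hcard]
  push_cast
  ring

include uz in
theorem s_cz (c : U ⊕ F.V → ℝ) (c0 c1 : ℝ) (h0 : ∀ u, c (Sum.inl u) = c0)
    (h1 : ∀ u, c (Sum.inr u) = c1) (j : F.J) : ∑ a, c a * - F.z (emb F U ι a) j = 0 := by
  rw [Fintype.sum_sum_type]
  simp only [emb, Sum.elim_inl, Sum.elim_inr, id, h0, h1, mul_neg, Finset.sum_neg_distrib,
    ← Finset.mul_sum, uz, F.z_sum]
  ring

include uw in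
theorem s_wc (c : U ⊕ F.V → ℝ) (c0 c1 : ℝ) (h0 : ∀ u, c (Sum.inl u) = c0)
    (h1 : ∀ u, c (Sum.inr u) = c1) (j : F.J) : ∑ a, F.w j (emb F U ι a) * c a = 0 := by
  rw [Fintype.sum_sum_type]
  simp only [emb, Sum.elim_inl, Sum.elim_inr, id, h0, h1, ← Finset.sum_mul, uw, F.w_sum]
  ring

include uw in
theorem s_w (j : F.J) : ∑ a, F.w j (emb F U ι a) = 0 := by
  rw [Fintype.sum_sum_type]
  simp only [emb, Sum.elim_inl, Sum.elim_inr, id, uw, F.w_sum]
  ring

include uz in
theorem s_z (j : F.J) : ∑ a, - F.z (emb F U ι a) j = 0 := by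
  rw [Fintype.sum_sum_type]
  simp only [emb, Sum.elim_inl, Sum.elim_inr, id, Finset.sum_neg_distrib, uz, F.z_sum]
  ring

include uo in
theorem s_o (j k : F.J) : ∑ a, F.w j (emb F U ι a) * - F.z (emb F U ι a) k =
    if j = k then -((Fintype.card (U ⊕ F.V) : ℝ) * F.lam j) else 0 := by
  rw [Fintype.sum_sum_type]
  simp only [emb, Sum.elim_inl, Sum.elim_inr, id, mul_neg, Finset.sum_neg_distrib, uo, F.orth,
    Fintype.card_sum]
  by_cases h : j = k
  · simp only [h, if_true]
    push_cast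
    ring
  · simp [h]

/-- the eigenvalues -/
noncomputable def gd (N : ℝ) (k : Option (Option (F.J ⊕ R.J))) : ℝ :=
  k.elim (24 * N) fun k => k.elim (-(N * (1 / 5))) fun k =>
    Sum.elim (fun j => -(N * F.lam j)) (fun j => -(N * R.lam j)) k

include hcard uz uw uo in
theorem glue_BA : Matrix.of (GB F R U ι) * Matrix.of (GA F R U ι) =
    Matrix.diagonal (gd F R (Fintype.card ((U ⊕ F.V) × R.V) : ℝ)) := by
  have hN : (Fintype.card ((U ⊕ F.V) × R.V) : ℝ) =
      (Fintype.card (U ⊕ F.V) : ℝ) * (Fintype.card R.V : ℝ) := by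
    rw [Fintype.card_prod]; push_cast; ring
  ext k l
  rw [Matrix.mul_apply]
  simp only [Matrix.of_apply]
  rcases k with _ | _ | k | k <;> rcases l with _ | _ | l | l
  · rw [Matrix.diagonal_apply_eq]
    simp only [GA, GB, gd, Option.elim]
    rw [sum_fst (fun a => hf F U a * (3 / 121 * hf F U a)), s_hh F U hcard, hN]
    ring
  · rw [Matrix.diagonal_apply_ne _ (by simp)]
    simp only [GA, GB, Option.elim]
    rw [sum_fst (fun a => hf F U a * (-(1 / 605) * gf F U a)), s_hg F U hcard, zero_mul]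
  · rw [Matrix.diagonal_apply_ne _ (by simp)]
    simp only [GA, GB, Option.elim, Sum.elim_inl, Sum.elim_inr]
    rw [sum_fst (fun a => hf F U a * - F.z (emb F U ι a) l),
      s_cz F U ι uz (hf F U) 32 31 (fun _ => rfl) (fun _ => rfl), zero_mul]
  · rw [Matrix.diagonal_apply_ne _ (by simp)]
    simp only [GA, GB, Option.elim, Sum.elim_inl, Sum.elim_inr]
    rw [sum_pr (fun a => hf F U a) (fun b => - R.z b l), Finset.sum_neg_distrib, R.z_sum,
      neg_zero, mul_zero]
  · rw [Matrix.diagonal_apply_ne _ (by simp)]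
    simp only [GA, GB, Option.elim]
    rw [sum_fst (fun a => gf F U a * (3 / 121 * hf F U a)), s_gh F U hcard, zero_mul]
  · rw [Matrix.diagonal_apply_eq]
    simp only [GA, GB, gd, Option.elim]
    rw [sum_fst (fun a => gf F U a * (-(1 / 605) * gf F U a)), s_gg F U hcard, hN]
    ring
  · rw [Matrix.diagonal_apply_ne _ (by simp)]
    simp only [GA, GB, Option.elim, Sum.elim_inl, Sum.elim_inr]
    rw [sum_fst (fun a => gf F U a * - F.z (emb F U ι a) l),
      s_cz F U ι uz (gf F U) 31 (-4) (fun _ => rfl) (fun _ => rfl), zero_mul]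
  · rw [Matrix.diagonal_apply_ne _ (by simp)]
    simp only [GA, GB, Option.elim, Sum.elim_inl, Sum.elim_inr]
    rw [sum_pr (fun a => gf F U a) (fun b => - R.z b l), Finset.sum_neg_distrib, R.z_sum,
      neg_zero, mul_zero]
  · rw [Matrix.diagonal_apply_ne _ (by simp)]
    simp only [GA, GB, Option.elim, Sum.elim_inl, Sum.elim_inr]
    rw [sum_fst (fun a => F.w k (emb F U ι a) * (3 / 121 * hf F U a)),
      s_wc F U ι uw (fun a => 3 / 121 * hf F U a) (3 / 121 * 32) (3 / 121 * 31)
        (fun _ => rfl) (fun _ => rfl), zero_mul]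
  · rw [Matrix.diagonal_apply_ne _ (by simp)]
    simp only [GA, GB, Option.elim, Sum.elim_inl, Sum.elim_inr]
    rw [sum_fst (fun a => F.w k (emb F U ι a) * (-(1 / 605) * gf F U a)),
      s_wc F U ι uw (fun a => -(1 / 605) * gf F U a) (-(1 / 605) * 31) (-(1 / 605) * (-4))
        (fun _ => rfl) (fun _ => rfl), zero_mul]
  · simp only [GA, GB, Option.elim, Sum.elim_inl, Sum.elim_inr]
    rw [sum_fst (fun a => F.w k (emb F U ι a) * - F.z (emb F U ι a) l), s_o F U ι uo]
    by_cases hkl : k = l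
    · subst hkl
      rw [Matrix.diagonal_apply_eq, if_pos rfl]
      simp only [gd, Option.elim, Sum.elim_inl]
      rw [hN]
      ring
    · rw [Matrix.diagonal_apply_ne _ (by simpa using hkl), if_neg hkl, zero_mul]
  · rw [Matrix.diagonal_apply_ne _ (by simp)]
    simp only [GA, GB, Option.elim, Sum.elim_inl, Sum.elim_inr]
    rw [sum_pr (fun a => F.w k (emb F U ι a)) (fun b => - R.z b l), s_w F U ι uw, zero_mul]
  · rw [Matrix.diagonal_apply_ne _ (by simp)]
    simp only [GA, GB, Option.elim, Sum.elim_inl, Sum.elim_inr]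
    have h := sum_pr (fun a => 3 / 121 * hf F U a) (fun b => R.w k b)
    rw [R.w_sum, mul_zero] at h
    rw [← h]
    exact Finset.sum_congr rfl fun x _ => mul_comm _ _
  · rw [Matrix.diagonal_apply_ne _ (by simp)]
    simp only [GA, GB, Option.elim, Sum.elim_inl, Sum.elim_inr]
    have h := sum_pr (fun a => -(1 / 605) * gf F U a) (fun b => R.w k b)
    rw [R.w_sum, mul_zero] at h
    rw [← h]
    exact Finset.sum_congr rfl fun x _ => mul_comm _ _
  · rw [Matrix.diagonal_apply_ne _ (by simp)]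
    simp only [GA, GB, Option.elim, Sum.elim_inl, Sum.elim_inr]
    have h := sum_pr (fun a => - F.z (emb F U ι a) l) (fun b => R.w k b)
    rw [R.w_sum, mul_zero] at h
    rw [← h]
    exact Finset.sum_congr rfl fun x _ => mul_comm _ _
  · simp only [GA, GB, Option.elim, Sum.elim_inl, Sum.elim_inr]
    rw [sum_snd (fun b => R.w k b * - R.z b l)]
    simp only [mul_neg, Finset.sum_neg_distrib, R.orth]
    by_cases hkl : k = l
    · subst hkl
      rw [Matrix.diagonal_apply_eq, if_pos rfl]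
      simp only [gd, Option.elim, Sum.elim_inr]
      rw [hN]
      ring
    · rw [Matrix.diagonal_apply_ne _ (by simpa using hkl), if_neg hkl, mul_zero, neg_zero]

include hcard uz uw uo in
open Polynomial in
theorem glue_charpoly (hι : Function.Injective ι)
    (ustep : ∀ x y : U, x ≠ y → ∃ x', F.δ (ι x) (ι x') = 1 ∧
      F.δ (ι x') (ι y) + 1 = F.δ (ι x) (ι y)) (hρ : F.ρ + R.ρ = 119 / 5) (N : ℝ)
    (hN : N = (Fintype.card ((U ⊕ F.V) × R.V) : ℝ)) :
    (X : ℝ[X]) ^ (Fintype.card F.J + Fintype.card R.J + 2) *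
        (distMat (glue F R U ι)).charpoly =
      X ^ Fintype.card ((U ⊕ F.V) × R.V) *
        ((X - C (24 * N)) * ((X - C (-(N * (1 / 5)))) * (F.P N * R.P N))) := by
  have h := charpoly_rel (distMat (glue F R U ι)) (Matrix.of (GA F R U ι))
    (Matrix.of (GB F R U ι)) (gd F R (Fintype.card ((U ⊕ F.V) × R.V) : ℝ))
    (glue_fac F R U ι hι ustep hρ) (glue_BA F R U ι hcard uz uw uo)
  rw [Fintype.card_option, Fintype.card_option, Fintype.card_sum, Fintype.prod_option,
    Fintype.prod_option, Fintype.prod_sum_type, ← hN] at h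
  simp only [gd, Option.elim, Sum.elim_inl, Sum.elim_inr] at h
  exact h

end sums

end glue

end Pool.Agent.H737DS
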