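import Pool.Agent.H737DS.Glue

set_option autoImplicit false
set_option linter.unusedSectionVars false
set_option linter.unusedSimpArgs false
set_option linter.unusedVariables false

/-! The two graphs. -/

namespace Pool.Agent.H737DS

open Finset

/-! ### Block parity words: cardinalities -/

section count

variable {m : ℕ} (blk : Fin 12 → Fin m) (rep : Fin m → Fin 12) (hrep : ∀ β, blk (rep β) = β)

/-- block sums -/
def bs (x : Fin 12 → ZMod 2) (β : Fin m) : ZMod 2 := ∑ i, (if blk i = β then x i else 0)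

/-- correction at the representatives -/
def adj (t : Fin m → ZMod 2) (x : Fin 12 → ZMod 2) : Fin 12 → ZMod 2 :=
  fun i => x i + if i = rep (blk i) then t (blk i) else 0

include hrep in
theorem bs_adj (t : Fin m → ZMod 2) (x : Fin 12 → ZMod 2) :
    bs blk (adj blk rep t x) = fun β => bs blk x β + t β := by
  funext β
  unfold bs
  have h1 : ∀ i, (if blk i = β then adj blk rep t x i else 0) =
      (if blk i = β then x i else 0) + (if i = rep β then t β else 0) := by
    intro i
    unfold adj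
    by_cases h : blk i = β
    · subst h
      simp
    · have h2 : ¬ i = rep β := fun hh => h (by rw [hh, hrep])
      simp [h, h2]
  simp only [h1, Finset.sum_add_distrib, Finset.sum_ite_eq', mem_univ, if_true]

theorem adj_adj (t : Fin m → ZMod 2) (x : Fin 12 → ZMod 2) :
    adj blk rep t (adj blk rep t x) = x := by
  funext i
  unfold adj
  have h : ∀ a b : ZMod 2, a + b + b = a := by decide
  exact h _ _

/-- words are block parity words and block sums -/
def cntE : HV blk × (Fin m → ZMod 2) ≃ (Fin 12 → ZMod 2) where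
  toFun p := adj blk rep p.2 p.1.1
  invFun y := (⟨adj blk rep (bs blk y) y, by
    intro β
    have h := congrFun (bs_adj blk rep hrep (bs blk y) y) β
    have h2 : ∀ a : ZMod 2, a + a = 0 := by decide
    exact h.trans (h2 _)⟩, bs blk y)
  left_inv := by
    rintro ⟨x, t⟩
    have h0 : bs blk x.1 = fun _ => 0 := funext fun β => x.2 β
    have h : bs blk (adj blk rep t x.1) = t := by
      rw [bs_adj blk rep hrep, h0]
      funext β
      exact zero_add _
    simp only [h]
    exact Prod.ext (Subtype.ext (adj_adj blk rep t x.1)) rfl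
  right_inv y := adj_adj blk rep (bs blk y) y

include hrep in
theorem card_HV : Fintype.card (HV blk) * 2 ^ m = 4096 := by
  have h := Fintype.card_congr (cntE blk rep hrep)
  rw [Fintype.card_prod] at h
  simpa using h

end count

/-- one block -/
def blk1 (_ : Fin 12) : Fin 1 := 0

/-- four blocks of size three -/
def blk0 (i : Fin 12) : Fin 4 := ⟨i.1 / 3, by omega⟩

theorem hblk1 : ∀ i j : Fin 12, ∃ k, k ≠ i ∧ k ≠ j ∧ blk1 k = blk1 i := by decide +kernel
theorem hblk0 : ∀ i j : Fin 12, ∃ k, k ≠ i ∧ k ≠ j ∧ blk0 k = blk0 i := by decide +kernel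

theorem card1 : Fintype.card (HV blk1) = 2048 := by
  have h := card_HV blk1 (fun _ => 0) (by decide)
  omega

theorem card0 : Fintype.card (HV blk0) = 256 := by
  have h := card_HV blk0 (fun β => ⟨3 * β.1, by omega⟩) (by decide)
  omega

/-- the half `12`-cube -/
noncomputable def F1 : Sys := HS blk1 hblk1

/-- the product of four half `3`-cubes -/
noncomputable def F0 : Sys := HS blk0 hblk0

/-- the inclusion -/
def inc (u : HV blk0) : F1.V :=
  (⟨u.1, fun β => by
    have h := total_zero blk0 u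
    refine Eq.trans (Finset.sum_congr rfl fun i _ => ?_) h
    exact if_pos (Subsingleton.elim _ _)⟩ : HV blk1)

theorem inc_inj : Function.Injective inc := by
  intro u v h
  have : (inc u).1 = (inc v).1 := by rw [h]
  exact Subtype.ext this

/-- the common part on the side of the irregular graph -/
noncomputable def RR : Sys := K5.prod ((CP3.pow 4).prod (K3.pow 24))

/-- the regular system -/
noncomputable def SS : Sys := F1.prod (CP5.prod (K3.pow 30))

/-- the irregular graph -/
noncomputable def Om : SimpleGraph ((HV blk0 ⊕ F1.V) × RR.V) := glue F1 RR (HV blk0) inc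

/-- the transmission-regular graph -/
noncomputable def Ga : SimpleGraph SS.V := SS.graph

theorem cardF1 : Fintype.card F1.V = 8 * Fintype.card (HV blk0) := by
  have h : Fintype.card F1.V = Fintype.card (HV blk1) := rfl
  rw [h, card1, card0]

theorem rhoRR : F1.ρ + RR.ρ = 119 / 5 := by
  simp only [F1, HS, RR, Sys.prod, Sys.pow, K5, KS, CP3, CS, K3]
  norm_num

theorem rhoSS : SS.ρ = 24 := by
  simp only [SS, F1, HS, Sys.prod, Sys.pow, KS, CP5, CS, K3]
  norm_num

theorem ustep (x y : HV blk0) (h : x ≠ y) : ∃ x', F1.δ (inc x) (inc x') = 1 ∧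
    F1.δ (inc x') (inc y) + 1 = F1.δ (inc x) (inc y) :=
  F0.δ_step x y h

theorem uz (j : F1.J) : ∑ u, F1.z (inc u) j = 0 := F0.z_sum j

theorem uw (j : F1.J) : ∑ u, F1.w j (inc u) = 0 := F0.w_sum j

theorem uo (j k : F1.J) : ∑ u, F1.w j (inc u) * F1.z (inc u) k =
    if j = k then (Fintype.card (HV blk0) : ℝ) * F1.lam j else 0 := F0.orth j k

theorem PK3 (N : ℝ) : K3.P N = (Polynomial.X - Polynomial.C (-(N * (1 / 3)))) ^ 2 := by
  unfold Sys.P K3 KS
  simp only [Finset.prod_const, card_univ, Fintype.card_fin]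
  norm_num

theorem PK5 (N : ℝ) : K5.P N = (Polynomial.X - Polynomial.C (-(N * (1 / 5)))) ^ 4 := by
  unfold Sys.P K5 KS
  simp only [Finset.prod_const, card_univ, Fintype.card_fin]
  norm_num

theorem PCP3 (N : ℝ) : CP3.P N = (Polynomial.X - Polynomial.C (-(N * (1 / 3)))) ^ 3 := by
  unfold Sys.P CP3 CS
  simp only [Finset.prod_const, card_univ, Fintype.card_fin]
  norm_num

theorem PCP5 (N : ℝ) : CP5.P N = (Polynomial.X - Polynomial.C (-(N * (1 / 5)))) ^ 5 := by
  unfold Sys.P CP5 CS
  simp only [Finset.prod_const, card_univ, Fintype.card_fin]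
  norm_num

theorem PF1 (N : ℝ) : F1.P N = (Polynomial.X - Polynomial.C (-(N * (1 / 4)))) ^ 12 := by
  unfold Sys.P F1 HS
  simp only [Finset.prod_const, card_univ, Fintype.card_fin]

/-- the number of vertices -/
def NV : ℕ := 14929920 * 3 ^ 24

theorem card_Om : Fintype.card ((HV blk0 ⊕ F1.V) × RR.V) = NV := by
  have h1 : Fintype.card RR.V = 5 * ((6 ^ 4) * (3 ^ 24)) := by
    have : Fintype.card RR.V =
        Fintype.card (Fin 5 × ((Fin 4 → (Fin 3 × Bool)) × (Fin 24 → Fin 3))) := rfl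
    rw [this]
    simp only [Fintype.card_prod, Fintype.card_fun, Fintype.card_fin, Fintype.card_bool]
  rw [Fintype.card_prod, Fintype.card_sum, cardF1, card0, h1]
  unfold NV
  norm_num

theorem card_Ga : Fintype.card SS.V = NV := by
  have h1 : Fintype.card SS.V =
      Fintype.card (HV blk1 × ((Fin 5 × Bool) × (Fin 30 → Fin 3))) := rfl
  rw [h1]
  simp only [Fintype.card_prod, Fintype.card_fun, Fintype.card_fin, Fintype.card_bool, card1]
  unfold NV
  norm_num

/-- the number of vertices as a real number -/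
noncomputable def NN : ℝ := (NV : ℝ)

theorem NV_pos : 0 < NV := by unfold NV; positivity

attribute [irreducible] NV

open Polynomial in
/-- the common polynomial -/
noncomputable def PP : ℝ[X] :=
  (X - C (24 * NN)) * ((X - C (-(NN * (1 / 4)))) ^ 12 * ((X - C (-(NN * (1 / 5)))) ^ 5 *
    (X - C (-(NN * (1 / 3)))) ^ 60))

theorem cardJ_SS : Fintype.card SS.J = 77 := by
  have : Fintype.card SS.J = Fintype.card (Fin 12 ⊕ (Fin 5 ⊕ (Fin 30 × Fin 2))) := rfl
  rw [this]
  simp

theorem castN_SS : ((Fintype.card SS.V : ℕ) : ℝ) = NN := by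
  rw [card_Ga]; rfl

open Polynomial in
theorem P_SS : SS.P NN = (X - C (-(NN * (1 / 4)))) ^ 12 * ((X - C (-(NN * (1 / 5)))) ^ 5 *
    (X - C (-(NN * (1 / 3)))) ^ 60) := by
  unfold SS
  rw [P_prod, P_prod, P_pow, PF1, PCP5, PK3, ← pow_mul]

open Polynomial in
theorem ga1 : (X : ℝ[X]) ^ (77 + 1) * (distMat SS.graph).charpoly =
    X ^ NV * ((X - C (24 * NN)) * SS.P NN) := by
  have h := SS.charpoly
  rw [cardJ_SS, castN_SS, rhoSS, card_Ga] at h
  exact h

theorem e78 : (77 + 1 : ℕ) = 78 := by norm_num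

open Polynomial in
theorem ga2 : (X : ℝ[X]) ^ 78 * (distMat SS.graph).charpoly =
    X ^ NV * ((X - C (24 * NN)) * SS.P NN) := by
  have h := ga1
  rw [e78] at h
  exact h

open Polynomial in
theorem ga3 : ((X : ℝ[X]) - C (24 * NN)) * SS.P NN = PP := by
  rw [P_SS, PP]

open Polynomial in
theorem ga4 : (X : ℝ[X]) ^ NV * ((X - C (24 * NN)) * SS.P NN) = X ^ NV * PP := by
  rw [ga3]

theorem Ga_eq : Ga = SS.graph := rfl

open Polynomial in
theorem char_Ga : (X : ℝ[X]) ^ 78 * (distMat Ga).charpoly = X ^ NV * PP := by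
  rw [Ga_eq]
  exact ga2.trans ga4

theorem castN_Om : NN = ((Fintype.card ((HV blk0 ⊕ F1.V) × RR.V) : ℕ) : ℝ) := by
  rw [card_Om]; rfl

theorem cardJ_F1 : Fintype.card F1.J = 12 := by
  have : Fintype.card F1.J = Fintype.card (Fin 12) := rfl
  rw [this]; simp

theorem cardJ_RR : Fintype.card RR.J = 64 := by
  have : Fintype.card RR.J = Fintype.card (Fin 4 ⊕ ((Fin 4 × Fin 3) ⊕ (Fin 24 × Fin 2))) := rfl
  rw [this]
  simp

open Polynomial in
theorem P_RR : RR.P NN = (X - C (-(NN * (1 / 5)))) ^ 4 *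
    ((X - C (-(NN * (1 / 3)))) ^ 12 * (X - C (-(NN * (1 / 3)))) ^ 48) := by
  unfold RR
  rw [P_prod, P_prod, P_pow, P_pow, PK5, PK3, PCP3, ← pow_mul, ← pow_mul]

theorem alg (a b c : Polynomial ℝ) :
    b * (a ^ 12 * (b ^ 4 * (c ^ 12 * c ^ 48))) = a ^ 12 * (b ^ 5 * c ^ 60) := by ring

open Polynomial in
theorem om3 : ((X : ℝ[X]) - C (24 * NN)) * ((X - C (-(NN * (1 / 5)))) * (F1.P NN * RR.P NN)) =
    PP := by
  rw [P_RR, PF1, alg, PP]

theorem Om_eq : Om = glue F1 RR (HV blk0) inc := rfl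

open Polynomial in
theorem om1 : (X : ℝ[X]) ^ (12 + 64 + 2) * (distMat (glue F1 RR (HV blk0) inc)).charpoly =
    X ^ NV * ((X - C (24 * NN)) * ((X - C (-(NN * (1 / 5)))) * (F1.P NN * RR.P NN))) := by
  have h := glue_charpoly F1 RR (HV blk0) inc cardF1 uz uw uo inc_inj ustep rhoRR NN castN_Om
  rw [cardJ_F1, cardJ_RR, card_Om] at h
  exact h

theorem e78' : (12 + 64 + 2 : ℕ) = 78 := by norm_num

open Polynomial in
theorem om2 : (X : ℝ[X]) ^ 78 * (distMat (glue F1 RR (HV blk0) inc)).charpoly =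
    X ^ NV * ((X - C (24 * NN)) * ((X - C (-(NN * (1 / 5)))) * (F1.P NN * RR.P NN))) := by
  have h := om1
  rw [e78'] at h
  exact h

open Polynomial in
theorem om4 : (X : ℝ[X]) ^ NV * ((X - C (24 * NN)) * ((X - C (-(NN * (1 / 5)))) *
    (F1.P NN * RR.P NN))) = X ^ NV * PP := by
  rw [om3]

open Polynomial in
theorem char_Om : (X : ℝ[X]) ^ 78 * (distMat Om).charpoly = X ^ NV * PP := by
  rw [Om_eq]
  exact om2.trans om4

theorem cancel_pow (n : ℕ) (a b c : Polynomial ℝ) (h1 : Polynomial.X ^ n * a = c)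
    (h2 : Polynomial.X ^ n * b = c) : a = b :=
  mul_left_cancel₀ (pow_ne_zero _ Polynomial.X_ne_zero) (h1.trans h2.symm)

theorem cospectral : (distMat Ga).charpoly = (distMat Om).charpoly :=
  cancel_pow 78 _ _ _ char_Ga char_Om

theorem Ga_connected : Ga.Connected :=
  { preconnected := fun x y => (SS.dist x y).1
    nonempty := by
      have h : 0 < Fintype.card SS.V := by rw [card_Ga]; exact NV_pos
      exact Fintype.card_pos_iff.1 h }

theorem Om_dist (x y : (HV blk0 ⊕ F1.V) × RR.V) :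
    Om.Reachable x y ∧ Om.dist x y = gδ F1 RR (HV blk0) inc x y :=
  glue_dist F1 RR (HV blk0) inc inc_inj ustep x y

theorem Om_connected : Om.Connected :=
  { preconnected := fun x y => (Om_dist x y).1
    nonempty := by
      have h : 0 < Fintype.card ((HV blk0 ⊕ F1.V) × RR.V) := by rw [card_Om]; exact NV_pos
      exact Fintype.card_pos_iff.1 h }

/-- every transmission of the regular graph -/
theorem Ga_trans (x : SS.V) : ∑ y, (Ga.dist x y : ℝ) = 24 * NN := by
  have h : ∀ y, (Ga.dist x y : ℝ) = SS.ρ - ∑ j, SS.z x j * SS.w j y := by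
    intro y
    have := (SS.dist x y).2
    unfold Ga
    rw [this, SS.fac]
  simp only [h, Finset.sum_sub_distrib]
  rw [Finset.sum_comm]
  simp only [← Finset.mul_sum, SS.w_sum, mul_zero, Finset.sum_const_zero, Finset.sum_const,
    card_univ, nsmul_eq_mul, card_Ga, rhoSS]
  unfold NN
  ring

/-- the transmissions of the irregular graph -/
theorem Om_trans (x : (HV blk0 ⊕ F1.V) × RR.V) : ∑ y, (Om.dist x y : ℝ) =
    119 / 5 * NN + ∑ y : (HV blk0 ⊕ F1.V) × RR.V,
      (if tg F1 (HV blk0) x.1 = tg F1 (HV blk0) y.1 then (0 : ℝ) else 1) := by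
  have h : ∀ y, (Om.dist x y : ℝ) =
      (if tg F1 (HV blk0) x.1 = tg F1 (HV blk0) y.1 then (0 : ℝ) else 1) + (119 / 5 -
        (∑ j, F1.z (emb F1 (HV blk0) inc x.1) j * F1.w j (emb F1 (HV blk0) inc y.1) +
        ∑ j, RR.z x.2 j * RR.w j y.2)) := by
    intro y
    rw [(Om_dist x y).2]
    unfold gδ
    push_cast
    rw [F1.fac, RR.fac, ← rhoRR]
    ring
  simp only [h, Finset.sum_add_distrib, Finset.sum_sub_distrib]
  have h1 : ∑ y : (HV blk0 ⊕ F1.V) × RR.V,
      ∑ j, F1.z (emb F1 (HV blk0) inc x.1) j * F1.w j (emb F1 (HV blk0) inc y.1) = 0 := by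
    rw [Finset.sum_comm]
    refine Finset.sum_eq_zero fun j _ => ?_
    rw [← Finset.mul_sum, sum_fst (fun a => F1.w j (emb F1 (HV blk0) inc a)),
      s_w F1 (HV blk0) inc uw, zero_mul, mul_zero]
  have h2 : ∑ y : (HV blk0 ⊕ F1.V) × RR.V, ∑ j, RR.z x.2 j * RR.w j y.2 = 0 := by
    rw [Finset.sum_comm]
    refine Finset.sum_eq_zero fun j _ => ?_
    rw [← Finset.mul_sum, sum_snd (fun b => RR.w j b), RR.w_sum, mul_zero, mul_zero]
  rw [h1, h2]
  simp only [Finset.sum_const, card_univ, nsmul_eq_mul, card_Om]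
  unfold NN
  ring

/-! ### Roots and transmissions, abstractly -/

theorem NN_pos : 0 < NN := by
  unfold NN
  exact_mod_cast NV_pos

theorem root_abs (n : ℕ) (c P : Polynomial ℝ) (h : Polynomial.X ^ 78 * c = Polynomial.X ^ n * P)
    (t : ℝ) (ht : c.IsRoot t) : t = 0 ∨ P.eval t = 0 := by
  have h1 := congrArg (Polynomial.eval t) h
  rw [Polynomial.eval_mul, ht.eq_zero, mul_zero, Polynomial.eval_mul, Polynomial.eval_pow,
    Polynomial.eval_X] at h1
  rcases mul_eq_zero.1 h1.symm with h2 | h2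
  · left
    by_contra hne
    exact pow_ne_zero _ hne h2
  · exact Or.inr h2

theorem top_abs (n : ℕ) (c P : Polynomial ℝ) (h : Polynomial.X ^ 78 * c = Polynomial.X ^ n * P)
    (t : ℝ) (ht : t ≠ 0) (hP : P.eval t = 0) : c.IsRoot t := by
  have h1 := congrArg (Polynomial.eval t) h
  rw [Polynomial.eval_mul, Polynomial.eval_mul, Polynomial.eval_pow, Polynomial.eval_X, hP,
    mul_zero] at h1
  rcases mul_eq_zero.1 h1 with h2 | h2
  · exact absurd h2 (pow_ne_zero _ ht)
  · exact h2

theorem PP_le (t : ℝ) (h : PP.eval t = 0) : t ≤ 24 * NN := by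
  have hN := NN_pos
  unfold PP at h
  generalize NN = M at h hN ⊢
  simp only [Polynomial.eval_mul, Polynomial.eval_pow, Polynomial.eval_sub, Polynomial.eval_X,
    Polynomial.eval_C, mul_eq_zero] at h
  rcases h with h1 | h1 | h1 | h1
  · linarith
  · have := (pow_eq_zero_iff (by norm_num)).1 h1
    linarith
  · have := (pow_eq_zero_iff (by norm_num)).1 h1
    linarith
  · have := (pow_eq_zero_iff (by norm_num)).1 h1
    linarith

theorem PP_top : PP.eval (24 * NN) = 0 := by
  unfold PP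
  generalize NN = M
  simp only [Polynomial.eval_mul, Polynomial.eval_sub, Polynomial.eval_X, Polynomial.eval_C,
    sub_self, zero_mul]

theorem root_Ga (t : ℝ) (ht : (distMat Ga).charpoly.IsRoot t) : t ≤ 24 * NN := by
  rcases root_abs NV _ _ char_Ga t ht with h | h
  · rw [h]
    have := NN_pos
    positivity
  · exact PP_le t h

theorem root_top : (distMat Ga).charpoly.IsRoot (24 * NN) :=
  top_abs NV _ _ char_Ga _ (mul_ne_zero (by norm_num) NN_pos.ne') PP_top

theorem tg_sum0 (F : Sys) (U : Type) [Fintype U] :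
    ∑ a : U ⊕ F.V, (if (0 : ℕ) = tg F U a then (0 : ℝ) else 1) = Fintype.card F.V := by
  rw [Fintype.sum_sum_type]
  simp [tg]

theorem tg_sum1 (F : Sys) (U : Type) [Fintype U] :
    ∑ a : U ⊕ F.V, (if (1 : ℕ) = tg F U a then (0 : ℝ) else 1) = Fintype.card U := by
  rw [Fintype.sum_sum_type]
  simp [tg]

theorem Om_far (u : HV blk0) (r : RR.V) :
    ∑ y, (Om.dist (Sum.inl u, r) y : ℝ) =
      119 / 5 * NN + (Fintype.card F1.V : ℝ) * Fintype.card RR.V := by
  rw [Om_trans]
  refine congrArg (fun t : ℝ => 119 / 5 * NN + t) ?_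
  have h := sum_fst (A := HV blk0 ⊕ F1.V) (B := RR.V)
    (fun a => if (0 : ℕ) = tg F1 (HV blk0) a then (0 : ℝ) else 1)
  rw [tg_sum0 F1 (HV blk0)] at h
  have e : tg F1 (HV blk0) (Sum.inl u) = 0 := rfl
  simp only [e]
  exact h

theorem Om_near (p : F1.V) (r : RR.V) :
    ∑ y, (Om.dist (Sum.inr p, r) y : ℝ) =
      119 / 5 * NN + (Fintype.card (HV blk0) : ℝ) * Fintype.card RR.V := by
  rw [Om_trans]
  refine congrArg (fun t : ℝ => 119 / 5 * NN + t) ?_
  have h := sum_fst (A := HV blk0 ⊕ F1.V) (B := RR.V)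
    (fun a => if (1 : ℕ) = tg F1 (HV blk0) a then (0 : ℝ) else 1)
  rw [tg_sum1 F1 (HV blk0)] at h
  have e : tg F1 (HV blk0) (Sum.inr p) = 1 := rfl
  simp only [e]
  exact h

theorem RR_pos : 0 < Fintype.card RR.V := by
  obtain ⟨x⟩ := Om_connected.nonempty
  exact Fintype.card_pos_iff.2 ⟨x.2⟩

theorem Om_irregular : ∃ x y : (HV blk0 ⊕ F1.V) × RR.V,
    ∑ z, (Om.dist x z : ℝ) ≠ ∑ z, (Om.dist y z : ℝ) := by
  obtain ⟨r⟩ := Fintype.card_pos_iff.1 RR_pos
  have hU : 0 < Fintype.card (HV blk0) := by rw [card0]; norm_num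
  obtain ⟨u⟩ := Fintype.card_pos_iff.1 hU
  refine ⟨(Sum.inl u, r), (Sum.inr (inc u), r), ?_⟩
  rw [Om_far, Om_near]
  intro h
  have h1 : (Fintype.card F1.V : ℝ) * Fintype.card RR.V =
      (Fintype.card (HV blk0) : ℝ) * Fintype.card RR.V := by linarith
  have h2 : (0 : ℝ) < Fintype.card RR.V := by exact_mod_cast RR_pos
  have h3 := mul_right_cancel₀ h2.ne' h1
  have h4 : Fintype.card F1.V = Fintype.card (HV blk0) := by exact_mod_cast h3
  rw [cardF1, card0] at h4
  omega

end Pool.Agent.H737DS
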