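import Pool.Agent.H737DS.Sys

set_option autoImplicit false

/-! Complete graphs `K_3`, `K_5`, cocktail party graphs `CP(3)`, `CP(5)`, half-cubes. -/

namespace Pool.Agent.H737DS

open Finset

/-! ### Complete graphs -/

/-- the discrete distance -/
def dd (m : ℕ) (u w : Fin (m + 1)) : ℕ := if u = w then 0 else 1

/-- left factor -/
def xi (m : ℕ) (a : Fin (m + 1)) (k : Fin m) : ℤ :=
  (if a = k.castSucc then 1 else 0) - (if a = Fin.last m then 1 else 0)

/-- `m + 1` times the right factor -/
def yi (m : ℕ) (k : Fin m) (b : Fin (m + 1)) : ℤ := (if b = k.castSucc then (m + 1 : ℤ) else 0) - 1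

/-- complete graph on `m + 1` points -/
noncomputable def KS (m : ℕ) (hst : ∀ x y : Fin (m + 1), x ≠ y → ∃ x', dd m x x' = 1 ∧
      dd m x' y + 1 = dd m x y)
    (htri : ∀ x y z : Fin (m + 1), dd m x z ≤ dd m x y + dd m y z)
    (hXY : ∀ a b : Fin (m + 1), ∑ k, xi m a k * yi m k b = m - (m + 1) * (dd m a b : ℤ))
    (hYX : ∀ k l : Fin m, ∑ a, yi m k a * xi m a l = if k = l then (m + 1 : ℤ) else 0)
    (hX : ∀ k : Fin m, ∑ a, xi m a k = 0) (hY : ∀ k : Fin m, ∑ a, yi m k a = 0) : Sys where
  V := Fin (m + 1)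
  J := Fin m
  δ := dd m
  δ_self x := by simp [dd]
  δ_zero x y h := by
    by_contra hne
    simp [dd, hne] at h
  δ_symm x y := by simp [dd, eq_comm]
  δ_tri := htri
  δ_step := hst
  ρ := 1 - 1 / (m + 1)
  z a k := (xi m a k : ℝ)
  w k b := (yi m k b : ℝ) / (m + 1)
  lam _ := 1 / (m + 1)
  fac x y := by
    have h : ((∑ k, xi m x k * yi m k y : ℤ) : ℝ) = ((m - (m + 1) * (dd m x y : ℤ) : ℤ) : ℝ) := by
      rw [hXY]
    push_cast at h
    have hm : (m : ℝ) + 1 ≠ 0 := by positivity
    simp only [← mul_div_assoc, ← Finset.sum_div]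
    rw [h]
    field_simp
    ring
  z_sum k := by
    have h : ((∑ a, xi m a k : ℤ) : ℝ) = ((0 : ℤ) : ℝ) := by rw [hX]
    push_cast at h
    exact h
  w_sum k := by
    have h : ((∑ a, yi m k a : ℤ) : ℝ) = ((0 : ℤ) : ℝ) := by rw [hY]
    push_cast at h
    rw [← Finset.sum_div, h, zero_div]
  orth k l := by
    have h : ((∑ a, yi m k a * xi m a l : ℤ) : ℝ) = ((if k = l then (m + 1 : ℤ) else 0 : ℤ) : ℝ) := by
      rw [hYX]
    push_cast at h
    have hm : (m : ℝ) + 1 ≠ 0 := by positivity
    simp only [div_mul_eq_mul_div, ← Finset.sum_div]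
    rw [h]
    by_cases hkl : k = l
    · simp only [hkl, if_true, Fintype.card_fin]
      push_cast
      field_simp
    · simp [hkl]

/-- `K_3` -/
noncomputable def K3 : Sys := KS 2 (by decide +kernel) (by decide +kernel) (by decide +kernel)
  (by decide +kernel) (by decide +kernel) (by decide +kernel)

/-- `K_5` -/
noncomputable def K5 : Sys := KS 4 (by decide +kernel) (by decide +kernel) (by decide +kernel)
  (by decide +kernel) (by decide +kernel) (by decide +kernel)

/-! ### Cocktail party graphs -/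

/-- the distance of the cocktail party graph -/
def cd (q : ℕ) (u w : Fin q × Bool) : ℕ := if u = w then 0 else if u.1 = w.1 then 2 else 1

/-- the signed unit vectors -/
def zi (q : ℕ) (u : Fin q × Bool) (k : Fin q) : ℤ :=
  if u.1 = k then (if u.2 then 1 else -1) else 0

/-- cocktail party graph -/
noncomputable def CS (q : ℕ) (hst : ∀ x y : Fin q × Bool, x ≠ y → ∃ x', cd q x x' = 1 ∧
      cd q x' y + 1 = cd q x y)
    (htri : ∀ x y z : Fin q × Bool, cd q x z ≤ cd q x y + cd q y z)
    (hZZ : ∀ a b : Fin q × Bool, ∑ k, zi q a k * zi q b k = 1 - (cd q a b : ℤ))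
    (hZ2 : ∀ k l : Fin q, ∑ a, zi q a k * zi q a l = if k = l then (2 : ℤ) else 0)
    (hZ : ∀ k : Fin q, ∑ a, zi q a k = 0) : Sys where
  V := Fin q × Bool
  J := Fin q
  δ := cd q
  δ_self x := by simp [cd]
  δ_zero x y h := by
    by_contra hne
    by_cases h1 : x.1 = y.1 <;> simp [cd, hne, h1] at h
  δ_symm x y := by
    by_cases h : x = y
    · subst h; rfl
    · have h' : ¬ y = x := fun hh => h hh.symm
      by_cases h1 : x.1 = y.1
      · simp [cd, h, h', h1]
      · have h1' : ¬ y.1 = x.1 := fun hh => h1 hh.symm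
        simp [cd, h, h', h1, h1']
  δ_tri := htri
  δ_step := hst
  ρ := 1
  z a k := (zi q a k : ℝ)
  w k b := (zi q b k : ℝ)
  lam _ := 1 / q
  fac x y := by
    have h : ((∑ k, zi q x k * zi q y k : ℤ) : ℝ) = ((1 - (cd q x y : ℤ) : ℤ) : ℝ) := by
      rw [hZZ]
    push_cast at h
    rw [h]
    ring
  z_sum k := by
    have h : ((∑ a, zi q a k : ℤ) : ℝ) = ((0 : ℤ) : ℝ) := by rw [hZ]
    push_cast at h
    exact h
  w_sum k := by
    have h : ((∑ a, zi q a k : ℤ) : ℝ) = ((0 : ℤ) : ℝ) := by rw [hZ]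
    push_cast at h
    exact h
  orth k l := by
    have h : ((∑ a, zi q a k * zi q a l : ℤ) : ℝ) = ((if k = l then (2 : ℤ) else 0 : ℤ) : ℝ) := by
      rw [hZ2]
    push_cast at h
    rw [h]
    by_cases hkl : k = l
    · simp only [hkl, if_true, Fintype.card_prod, Fintype.card_fin, Fintype.card_bool]
      have hq : (q : ℝ) ≠ 0 := by
        have : 0 < q := lt_of_le_of_lt (Nat.zero_le _) l.2
        positivity
      push_cast
      field_simp
    · simp [hkl]

/-- `CP(3)` -/
noncomputable def CP3 : Sys := CS 3 (by decide +kernel) (by decide +kernel) (by decide +kernel)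
  (by decide +kernel) (by decide +kernel)

/-- `CP(5)` -/
noncomputable def CP5 : Sys := CS 5 (by decide +kernel) (by decide +kernel) (by decide +kernel)
  (by decide +kernel) (by decide +kernel)

/-! ### Half-cubes with block parity conditions -/

section half

variable {m : ℕ} (blk : Fin 12 → Fin m)

/-- words all of whose block sums vanish -/
abbrev HV : Type :=
  {x : Fin 12 → ZMod 2 // ∀ β : Fin m, ∑ i, (if blk i = β then x i else 0) = 0}

/-- changing two letters -/
def fl (i k : Fin 12) (x : Fin 12 → ZMod 2) : Fin 12 → ZMod 2 :=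
  fun l => if l = i ∨ l = k then x l + 1 else x l

theorem fl_fl (i k : Fin 12) (x : Fin 12 → ZMod 2) : fl i k (fl i k x) = x := by
  funext l
  unfold fl
  have h2 : ∀ a : ZMod 2, a + 1 + 1 = a := by decide
  by_cases h : l = i ∨ l = k <;> simp [h, h2]

theorem fl_mem {i k : Fin 12} (hik : i ≠ k) (hb : blk i = blk k) (x : Fin 12 → ZMod 2)
    (hx : ∀ β : Fin m, ∑ i, (if blk i = β then x i else 0) = 0) :
    ∀ β : Fin m, ∑ l, (if blk l = β then fl i k x l else 0) = 0 := by
  intro β
  have h1 : ∀ l, (if blk l = β then fl i k x l else 0) =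
      (if blk l = β then x l else 0) + ((if l = i then (if blk i = β then (1 : ZMod 2) else 0) else 0)
        + (if l = k then (if blk k = β then (1 : ZMod 2) else 0) else 0)) := by
    intro l
    unfold fl
    by_cases h : l = i
    · subst h
      by_cases hβ : blk l = β <;> simp [hβ, hik]
    · by_cases h' : l = k
      · subst h'
        by_cases hβ : blk l = β <;> simp [hβ, h]
      · by_cases hβ : blk l = β <;> simp [hβ, h, h']
  simp only [h1, Finset.sum_add_distrib, hx β, Finset.sum_ite_eq', mem_univ, if_true, hb]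
  have h2 : ∀ a : ZMod 2, 0 + (a + a) = 0 := by decide
  exact h2 _

theorem total_zero (x : HV blk) : ∑ i, x.1 i = 0 := by
  have h : ∑ β, ∑ i, (if blk i = β then x.1 i else 0) = 0 :=
    Finset.sum_eq_zero fun β _ => x.2 β
  rw [Finset.sum_comm] at h
  simpa using h

theorem cast_ham (x y : Fin 12 → ZMod 2) :
    ((hammingDist x y : ℕ) : ZMod 2) = ∑ i, x i + ∑ i, y i := by
  unfold hammingDist
  rw [Finset.card_filter, ← Finset.sum_add_distrib]
  push_cast
  refine Finset.sum_congr rfl fun i _ => ?_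
  have h : ∀ a b : ZMod 2, (if a ≠ b then (1 : ZMod 2) else 0) = a + b := by decide
  have := h (x i) (y i)
  convert this using 1

theorem ham_even (x y : HV blk) : 2 * (hammingDist x.1 y.1 / 2) = hammingDist x.1 y.1 := by
  have h := cast_ham x.1 y.1
  rw [total_zero, total_zero, add_zero] at h
  have h2 : 2 ∣ hammingDist x.1 y.1 := (ZMod.natCast_eq_zero_iff _ _).1 h
  exact Nat.mul_div_cancel' h2

theorem ham_fl_self {i k : Fin 12} (hik : i ≠ k) (x : Fin 12 → ZMod 2) :
    hammingDist x (fl i k x) = 2 := by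
  unfold hammingDist
  have h : (univ.filter fun l => x l ≠ fl i k x l) = {i, k} := by
    ext l
    have h2 : ∀ a : ZMod 2, a ≠ a + 1 := by decide
    simp only [mem_filter, mem_univ, true_and, mem_insert, mem_singleton]
    unfold fl
    by_cases h : l = i ∨ l = k
    · simp [h]
    · simp [h]
  rw [h, Finset.card_pair hik]

theorem ham_fl {i k : Fin 12} (hik : i ≠ k) (x y : Fin 12 → ZMod 2) (hi : x i ≠ y i)
    (hk : x k ≠ y k) : hammingDist (fl i k x) y + 2 = hammingDist x y := by
  unfold hammingDist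
  have h : (univ.filter fun l => x l ≠ y l) =
      insert i (insert k (univ.filter fun l => fl i k x l ≠ y l)) := by
    ext l
    simp only [mem_filter, mem_univ, true_and, mem_insert]
    unfold fl
    by_cases h1 : l = i
    · subst h1; simp [hi]
    · by_cases h2 : l = k
      · subst h2; simp [hk]
      · simp [h1, h2]
  have h2 : ∀ a b : ZMod 2, a ≠ b → a + 1 = b := by decide
  rw [h, Finset.card_insert_of_notMem, Finset.card_insert_of_notMem]
  · simp only [mem_filter, mem_univ, true_and, not_not]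
    unfold fl
    simp [h2 _ _ hk]
  · simp only [mem_insert, mem_filter, mem_univ, true_and, not_or, not_not]
    refine ⟨hik, ?_⟩
    unfold fl
    simp [h2 _ _ hi]

/-- the sign of a letter -/
def sgz (a : ZMod 2) : ℝ := if a = 0 then 1 else -1

theorem sgz_add_one (a : ZMod 2) : sgz (a + 1) = - sgz a := by
  have h : ∀ a : ZMod 2, (a = 0 ∧ a + 1 ≠ 0) ∨ (a ≠ 0 ∧ a + 1 = 0) := by decide
  unfold sgz
  rcases h a with ⟨h1, h2⟩ | ⟨h1, h2⟩ <;> simp [h1, h2]

theorem sgz_mul (a b : ZMod 2) : sgz a * sgz b = 1 - 2 * (if a ≠ b then (1 : ℝ) else 0) := by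
  have h : ∀ a b : ZMod 2, (a = 0 ∧ b = 0) ∨ (a = 1 ∧ b = 1) ∨ (a = 0 ∧ b = 1) ∨ (a = 1 ∧ b = 0) := by
    decide
  unfold sgz
  rcases h a b with ⟨rfl, rfl⟩ | ⟨rfl, rfl⟩ | ⟨rfl, rfl⟩ | ⟨rfl, rfl⟩ <;> simp <;> norm_num

/-- the two-letter change as a permutation -/
def flE {i k : Fin 12} (hik : i ≠ k) (hb : blk i = blk k) : Equiv.Perm (HV blk) where
  toFun x := ⟨fl i k x.1, fl_mem blk hik hb x.1 x.2⟩
  invFun x := ⟨fl i k x.1, fl_mem blk hik hb x.1 x.2⟩
  left_inv x := Subtype.ext (fl_fl i k x.1)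
  right_inv x := Subtype.ext (fl_fl i k x.1)

theorem fl_left (i k : Fin 12) (x : Fin 12 → ZMod 2) : fl i k x i = x i + 1 := by simp [fl]

theorem fl_ne {i k j : Fin 12} (h1 : j ≠ i) (h2 : j ≠ k) (x : Fin 12 → ZMod 2) :
    fl i k x j = x j := by simp [fl, h1, h2]

/-- the half-cube system of a block structure -/
noncomputable def HS (hblk : ∀ i j : Fin 12, ∃ k, k ≠ i ∧ k ≠ j ∧ blk k = blk i) : Sys where
  V := HV blk
  J := Fin 12
  δ x y := hammingDist x.1 y.1 / 2
  δ_self x := by simp
  δ_zero x y h := by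
    have h1 := ham_even blk x y
    rw [h, mul_zero] at h1
    exact Subtype.ext (hammingDist_eq_zero.1 h1.symm)
  δ_symm x y := by rw [hammingDist_comm]
  δ_tri x y z := by
    have h1 := ham_even blk x y
    have h2 := ham_even blk y z
    have h3 := ham_even blk x z
    have h4 := hammingDist_triangle x.1 y.1 z.1
    omega
  δ_step x y h := by
    have hne : x.1 ≠ y.1 := fun hh => h (Subtype.ext hh)
    obtain ⟨i, hi⟩ := Function.ne_iff.1 hne
    have hk : ∃ k, k ≠ i ∧ blk k = blk i ∧ x.1 k ≠ y.1 k := by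
      by_contra hcon
      push Not at hcon
      have h1 := x.2 (blk i)
      have h2 := y.2 (blk i)
      rw [← Finset.add_sum_erase _ _ (mem_univ i)] at h1 h2
      have h3 : ∑ l ∈ univ.erase i, (if blk l = blk i then x.1 l else 0) =
          ∑ l ∈ univ.erase i, (if blk l = blk i then y.1 l else 0) := by
        refine Finset.sum_congr rfl fun l hl => ?_
        by_cases hb : blk l = blk i
        · rw [if_pos hb, if_pos hb, hcon l (Finset.ne_of_mem_erase hl) hb]
        · rw [if_neg hb, if_neg hb]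
      rw [if_pos rfl, h3] at h1
      rw [if_pos rfl] at h2
      exact hi (add_right_cancel (h1.trans h2.symm))
    obtain ⟨k, hki, hb, hk⟩ := hk
    refine ⟨⟨fl i k x.1, fl_mem blk hki.symm hb.symm x.1 x.2⟩, ?_, ?_⟩
    · dsimp only
      rw [ham_fl_self hki.symm]
    · have h1 := ham_fl hki.symm x.1 y.1 hi hk
      dsimp only
      omega
  ρ := 3
  z x i := sgz (x.1 i) / 2
  w i x := sgz (x.1 i) / 2
  lam _ := 1 / 4
  fac x y := by
    have h1 : ((hammingDist x.1 y.1 / 2 : ℕ) : ℝ) = (hammingDist x.1 y.1 : ℝ) / 2 := by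
      have := ham_even blk x y
      have h2 : (2 : ℝ) * ((hammingDist x.1 y.1 / 2 : ℕ) : ℝ) = (hammingDist x.1 y.1 : ℝ) := by
        exact_mod_cast this
      linarith
    rw [h1]
    have h3 : ∀ i, sgz (x.1 i) / 2 * (sgz (y.1 i) / 2) =
        1 / 4 - 1 / 2 * (if x.1 i ≠ y.1 i then (1 : ℝ) else 0) := by
      intro i
      have := sgz_mul (x.1 i) (y.1 i)
      linear_combination (1 / 4 : ℝ) * this
    simp only [h3, Finset.sum_sub_distrib, ← Finset.mul_sum, Finset.sum_boole]
    simp only [Finset.sum_const, card_univ, Fintype.card_fin, nsmul_eq_mul]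
    unfold hammingDist
    norm_num
    ring
  z_sum i := by
    obtain ⟨k, hki, -, hb⟩ := hblk i i
    have h := Equiv.sum_comp (flE blk hki.symm hb.symm) (fun x : HV blk => sgz (x.1 i) / 2)
    simp only [flE, Equiv.coe_fn_mk, fl_left, sgz_add_one, neg_div, Finset.sum_neg_distrib] at h
    linarith
  w_sum i := by
    obtain ⟨k, hki, -, hb⟩ := hblk i i
    have h := Equiv.sum_comp (flE blk hki.symm hb.symm) (fun x : HV blk => sgz (x.1 i) / 2)
    simp only [flE, Equiv.coe_fn_mk, fl_left, sgz_add_one, neg_div, Finset.sum_neg_distrib] at h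
    linarith
  orth i j := by
    by_cases hij : i = j
    · subst hij
      have h3 : ∀ x : HV blk, sgz (x.1 i) / 2 * (sgz (x.1 i) / 2) = 1 / 4 := by
        intro x
        have := sgz_mul (x.1 i) (x.1 i)
        simp only [ne_eq, not_true, if_false, mul_zero, sub_zero] at this
        linear_combination (1 / 4 : ℝ) * this
      simp only [h3, if_true, Finset.sum_const, card_univ, nsmul_eq_mul]
    · rw [if_neg hij]
      obtain ⟨k, hki, hkj, hb⟩ := hblk i j
      have h := Equiv.sum_comp (flE blk hki.symm hb.symm)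
        (fun x : HV blk => sgz (x.1 i) / 2 * (sgz (x.1 j) / 2))
      simp only [flE, Equiv.coe_fn_mk, fl_left, sgz_add_one,
        fl_ne (Ne.symm hij) (Ne.symm hkj), neg_div, neg_mul, Finset.sum_neg_distrib] at h
      linarith

end half

end Pool.Agent.H737DS
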