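import Mathlib

set_option autoImplicit false

/-!
Systems: finite metric spaces with unit steps whose distance matrix is `ρ J - z w` with
`w z` diagonal; products, powers, complete graphs, cocktail party graphs, half-cubes.
-/

namespace Pool.Agent.H737DS

open Finset

/-! ### Sums over functions -/

theorem sum_coord {ι α : Type} [Fintype ι] [DecidableEq ι] [Fintype α] (j : ι) (f : α → ℝ) :
    ∑ x : ι → α, f (x j) = (Fintype.card α : ℝ) ^ (Fintype.card ι - 1) * ∑ a, f a := by
  rw [← (Equiv.funSplitAt j α).symm.sum_comp, Fintype.sum_prod_type]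
  simp [Equiv.funSplitAt, Equiv.piSplitAt, Finset.mul_sum, Fintype.card_subtype_compl]

theorem sum_two {ι α : Type} [Fintype ι] [DecidableEq ι] [Fintype α] (j l : ι) (hjl : j ≠ l)
    (f g : α → ℝ) (hg : ∑ a, g a = 0) :
    ∑ x : ι → α, f (x j) * g (x l) = 0 := by
  have h := Finset.prod_univ_sum (fun _ : ι => (univ : Finset α))
    (fun i a => (if i = j then f a else 1) * (if i = l then g a else 1))
  rw [Fintype.piFinset_univ] at h
  have h2 : ∀ x : ι → α, ∏ i, ((if i = j then f (x i) else 1) * (if i = l then g (x i) else 1)) =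
      f (x j) * g (x l) := by
    intro x
    rw [Finset.prod_mul_distrib]
    simp
  rw [Finset.sum_congr rfl fun x _ => (h2 x).symm, ← h]
  refine Finset.prod_eq_zero (mem_univ l) ?_
  simp [hjl.symm, hg]

theorem sum_pr {A B : Type} [Fintype A] [Fintype B] (f : A → ℝ) (g : B → ℝ) :
    ∑ x : A × B, f x.1 * g x.2 = (∑ a, f a) * ∑ b, g b := by
  rw [Fintype.sum_prod_type, Finset.sum_mul_sum]

theorem sum_fst {A B : Type} [Fintype A] [Fintype B] (f : A → ℝ) :
    ∑ x : A × B, f x.1 = (∑ a, f a) * (Fintype.card B : ℝ) := by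
  have h := sum_pr f (fun _ : B => (1 : ℝ))
  simpa using h

theorem sum_snd {A B : Type} [Fintype A] [Fintype B] (g : B → ℝ) :
    ∑ x : A × B, g x.2 = (Fintype.card A : ℝ) * ∑ b, g b := by
  have h := sum_pr (fun _ : A => (1 : ℝ)) g
  simpa using h

/-- a finite metric space with unit steps and a factorisation of its distance matrix -/
structure Sys where
  V : Type
  [fV : Fintype V]
  [dV : DecidableEq V]
  J : Type
  [fJ : Fintype J]
  [dJ : DecidableEq J]
  δ : V → V → ℕ
  δ_self : ∀ x, δ x x = 0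
  δ_zero : ∀ x y, δ x y = 0 → x = y
  δ_symm : ∀ x y, δ x y = δ y x
  δ_tri : ∀ x y z, δ x z ≤ δ x y + δ y z
  δ_step : ∀ x y, x ≠ y → ∃ x', δ x x' = 1 ∧ δ x' y + 1 = δ x y
  ρ : ℝ
  z : V → J → ℝ
  w : J → V → ℝ
  lam : J → ℝ
  fac : ∀ x y, (δ x y : ℝ) = ρ - ∑ j, z x j * w j y
  z_sum : ∀ j, ∑ x, z x j = 0
  w_sum : ∀ j, ∑ x, w j x = 0
  orth : ∀ j k, ∑ x, w j x * z x k = if j = k then (Fintype.card V : ℝ) * lam j else 0

attribute [instance] Sys.fV Sys.dV Sys.fJ Sys.dJ

/-- product -/
def Sys.prod (S T : Sys) : Sys where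
  V := S.V × T.V
  J := S.J ⊕ T.J
  δ x y := S.δ x.1 y.1 + T.δ x.2 y.2
  δ_self x := by rw [S.δ_self, T.δ_self]
  δ_zero x y h := Prod.ext (S.δ_zero _ _ (by omega)) (T.δ_zero _ _ (by omega))
  δ_symm x y := by rw [S.δ_symm, T.δ_symm]
  δ_tri x y z := by
    have h1 := S.δ_tri x.1 y.1 z.1
    have h2 := T.δ_tri x.2 y.2 z.2
    omega
  δ_step := by
    rintro ⟨a, b⟩ ⟨c, d⟩ h
    by_cases hac : a = c
    · subst hac
      have hbd : b ≠ d := fun h' => h (by rw [h'])
      obtain ⟨b', h1, h2⟩ := T.δ_step b d hbd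
      refine ⟨(a, b'), ?_, ?_⟩
      · simp only [S.δ_self, h1]
      · simp only [S.δ_self]; omega
    · obtain ⟨a', h1, h2⟩ := S.δ_step a c hac
      refine ⟨(a', b), ?_, ?_⟩
      · simp only [T.δ_self, h1]
      · dsimp only; omega
  ρ := S.ρ + T.ρ
  z x := Sum.elim (S.z x.1) (T.z x.2)
  w j x := Sum.elim (fun j => S.w j x.1) (fun j => T.w j x.2) j
  lam := Sum.elim S.lam T.lam
  fac x y := by
    push_cast
    rw [S.fac, T.fac, Fintype.sum_sum_type]
    simp only [Sum.elim_inl, Sum.elim_inr]
    ring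
  z_sum j := by
    rcases j with j | j
    · simp only [Sum.elim_inl]
      rw [sum_fst (fun a => S.z a j), S.z_sum, zero_mul]
    · simp only [Sum.elim_inr]
      rw [sum_snd (fun a => T.z a j), T.z_sum, mul_zero]
  w_sum j := by
    rcases j with j | j
    · simp only [Sum.elim_inl]
      rw [sum_fst (fun a => S.w j a), S.w_sum, zero_mul]
    · simp only [Sum.elim_inr]
      rw [sum_snd (fun a => T.w j a), T.w_sum, mul_zero]
  orth j k := by
    rcases j with j | j <;> rcases k with k | k
    · simp only [Sum.elim_inl]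
      rw [sum_fst (fun a => S.w j a * S.z a k), S.orth, Fintype.card_prod]
      by_cases h : j = k
      · simp [h]; ring
      · simp [h]
    · simp only [Sum.elim_inl, Sum.elim_inr]
      rw [sum_pr (fun a => S.w j a) (fun b => T.z b k), S.w_sum, zero_mul, if_neg (by simp)]
    · simp only [Sum.elim_inl, Sum.elim_inr]
      have h := sum_pr (fun a => S.z a k) (fun b => T.w j b)
      rw [S.z_sum, zero_mul] at h
      rw [if_neg (by simp), ← h]
      exact Finset.sum_congr rfl fun x _ => mul_comm _ _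
    · simp only [Sum.elim_inr]
      rw [sum_snd (fun a => T.w j a * T.z a k), T.orth, Fintype.card_prod]
      by_cases h : j = k
      · simp [h]; ring
      · simp [h]

/-- power -/
def Sys.pow (S : Sys) (n : ℕ) : Sys where
  V := Fin n → S.V
  J := Fin n × S.J
  δ x y := ∑ i, S.δ (x i) (y i)
  δ_self x := Finset.sum_eq_zero fun i _ => S.δ_self _
  δ_zero x y h := funext fun i => S.δ_zero _ _ ((Finset.sum_eq_zero_iff.1 h) i (mem_univ i))
  δ_symm x y := Finset.sum_congr rfl fun i _ => S.δ_symm _ _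
  δ_tri x y z := by
    rw [← Finset.sum_add_distrib]
    exact Finset.sum_le_sum fun i _ => S.δ_tri _ _ _
  δ_step := by
    intro x y h
    obtain ⟨j, hj⟩ := Function.ne_iff.1 h
    obtain ⟨a, h1, h2⟩ := S.δ_step (x j) (y j) hj
    refine ⟨Function.update x j a, ?_, ?_⟩
    · have h3 : ∑ i ∈ univ.erase j, S.δ (x i) (Function.update x j a i) = 0 := by
        refine Finset.sum_eq_zero fun i hi => ?_
        rw [Function.update_of_ne (Finset.ne_of_mem_erase hi), S.δ_self]
      rw [← Finset.add_sum_erase _ _ (mem_univ j), h3, Function.update_self, h1]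
    · rw [← Finset.add_sum_erase _ _ (mem_univ j),
        ← Finset.add_sum_erase (a := j) _ _ (mem_univ j), ← h2, Function.update_self]
      have : ∑ i ∈ univ.erase j, S.δ (Function.update x j a i) (y i) =
          ∑ i ∈ univ.erase j, S.δ (x i) (y i) := by
        refine Finset.sum_congr rfl fun i hi => ?_
        rw [Function.update_of_ne (Finset.ne_of_mem_erase hi)]
      omega
  ρ := n * S.ρ
  z x j := S.z (x j.1) j.2
  w j x := S.w j.2 (x j.1)
  lam j := S.lam j.2
  fac x y := by
    push_cast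
    simp only [S.fac]
    rw [Fintype.sum_prod_type, Finset.sum_sub_distrib]
    simp
  z_sum j := by rw [sum_coord j.1 (fun a => S.z a j.2), S.z_sum, mul_zero]
  w_sum j := by rw [sum_coord j.1 (fun a => S.w j.2 a), S.w_sum, mul_zero]
  orth := by
    rintro ⟨i, j⟩ ⟨i', k⟩
    by_cases hi : i = i'
    · subst hi
      dsimp only
      rw [sum_coord i (fun a => S.w j a * S.z a k), S.orth]
      by_cases h : j = k
      · subst h
        simp only [if_true, Fintype.card_fin, Fintype.card_fun]
        have hn : 0 < n := lt_of_le_of_lt (Nat.zero_le _) i.2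
        obtain ⟨m, rfl⟩ := Nat.exists_eq_succ_of_ne_zero hn.ne'
        push_cast
        simp only [pow_succ]
        ring
      · have h' : ¬ ((i, j) = (i, k)) := fun hh => h (Prod.mk.inj hh).2
        rw [if_neg h, if_neg h', mul_zero]
    · have h' : ¬ ((i, j) = (i', k)) := fun hh => hi (Prod.mk.inj hh).1
      rw [if_neg h']
      exact sum_two i i' hi (fun a => S.w j a) (fun a => S.z a k) (S.z_sum k)

end Pool.Agent.H737DS
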